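import Pool.Agent.H9.WMC.Lin

/-! # WMC, modules TWI and FIV -/

set_option autoImplicit false

namespace Pool.H9.WMC

open Module Module.End Pool.H73.WM

section
variable {Ω : Type} [Field Ω] {V V' : Type} [AddCommGroup V] [Module Ω V] [AddCommGroup V']
  [Module Ω V']

theorem gen_hom {F : V →ₗ[Ω] V} {F' : V' →ₗ[Ω] V'} {f : V →ₗ[Ω] V'} {α β c : Ω}
    (h : ∀ x, F' (f x) - β • f x = c • f (F x - α • x)) :
    ∀ x ∈ maxGenEigenspace F α, f x ∈ maxGenEigenspace F' β := by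
  intro x hx
  rw [mem_maxGenEigenspace] at hx ⊢
  obtain ⟨n, hn⟩ := hx
  refine ⟨n, ?_⟩
  have key : ∀ m : ℕ, ∀ y : V, ((F' - β • (1 : End Ω V')) ^ m) (f y)
      = c ^ m • f (((F - α • (1 : End Ω V)) ^ m) y) := by
    intro m
    induction m with
    | zero => intro y; simp
    | succ m ih =>
      intro y
      have e1 : ((F' - β • (1 : End Ω V')) ^ (m + 1)) (f y)
          = ((F' - β • (1 : End Ω V')) ^ m) (F' (f y) - β • f y) := by
        rw [pow_succ]; rfl
      have e2 : ((F - α • (1 : End Ω V)) ^ (m + 1)) y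
          = ((F - α • (1 : End Ω V)) ^ m) (F y - α • y) := by
        rw [pow_succ]; rfl
      rw [e1, e2, h, map_smul, ih, smul_smul, pow_succ]
      congr 1
      ring
  rw [key, hn]
  simp

/-- maps of sums of generalized eigenspaces -/
theorem GS_hom {F : V →ₗ[Ω] V} {F' : V' →ₗ[Ω] V'} {f : V →ₗ[Ω] V'} {c : Ω}
    (h : ∀ x, F' (f x) = c • f (F x)) {S S' : Set Ω} (hS : ∀ α ∈ S, α * c ∈ S') :
    ∀ x ∈ GS F S, f x ∈ GS F' S' := by
  have : GS F S ≤ (GS F' S').comap f := by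
    apply GS_le
    intro α hα x hx
    refine le_GS F' (hS α hα) (gen_hom (F := F) (F' := F') (f := f) (α := α) (β := α * c) (c := c)
      (fun x => ?_) x hx)
    rw [h, map_sub, map_smul, smul_sub, smul_smul, mul_comm c α]
  exact this

end

namespace FN

variable {q : ℕ} {Ω : Type} [Field Ω] [CharZero Ω] {M M' : FN q Ω}

theorem q_ne (hq : 1 < q) : (q : Ω) ≠ 0 := by
  have : q ≠ 0 := by omega
  exact_mod_cast this

theorem wt_N (hq : 1 < q) (M : FN q Ω) (v : ℤ) : ∀ x ∈ M.wt v, M.N x ∈ M.wt (v - 2) := by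
  have h : ∀ x, M.F (M.N x) = ((q : Ω)⁻¹) • M.N (M.F x) := by
    intro x
    rw [M.NF, smul_smul, inv_mul_cancel₀ (q_ne hq), one_smul]
  exact GS_hom h fun α hα => IsWeil.mul hq hα isWeil_qinv

theorem wt_Npow (hq : 1 < q) (M : FN q Ω) (v : ℤ) (n : ℕ) :
    ∀ x ∈ M.wt v, (M.N ^ n) x ∈ M.wt (v - 2 * n) := by
  induction n with
  | zero => intro x hx; simpa using hx
  | succ n ih =>
    intro x hx
    rw [pow_succ']
    have := M.wt_N hq _ _ (ih x hx)
    have e : v - 2 * (n : ℤ) - 2 = v - 2 * ((n + 1 : ℕ) : ℤ) := by push_cast; ring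
    rw [e] at this
    exact this

theorem IsHom.wt {f : M.V →ₗ[Ω] M'.V} (hf : M.IsHom M' f) (v : ℤ) :
    ∀ x ∈ M.wt v, f x ∈ M'.wt v := by
  refine GS_hom (c := 1) (fun x => by rw [one_smul, hf.F]) fun α hα => ?_
  rw [mul_one]
  exact hα

theorem IsHom.Npow {f : M.V →ₗ[Ω] M'.V} (hf : M.IsHom M' f) (n : ℕ) (x : M.V) :
    f ((M.N ^ n) x) = (M'.N ^ n) (f x) := by
  induction n with
  | zero => simp
  | succ n ih =>
    rw [pow_succ', pow_succ']
    show f (M.N ((M.N ^ n) x)) = M'.N ((M'.N ^ n) (f x))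
    rw [hf.N, ih]

/-- the weights other than `v` -/
def ow (M : FN q Ω) (v : ℤ) : Submodule Ω M.V := GS M.F {α : Ω | ∃ u, u ≠ v ∧ IsWeil q α u}

theorem IsHom.ow {f : M.V →ₗ[Ω] M'.V} (hf : M.IsHom M' f) (v : ℤ) :
    ∀ x ∈ M.ow v, f x ∈ M'.ow v := by
  refine GS_hom (c := 1) (fun x => by rw [one_smul, hf.F]) fun α hα => ?_
  rw [mul_one]
  exact hα

theorem disj (hq : 1 < q) (M : FN q Ω) (v : ℤ) {x : M.V} (h1 : x ∈ M.wt v) (h2 : x ∈ M.ow v) :
    x = 0 := by
  have hd : Disjoint (M.wt v) (M.ow v) := by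
    apply GS_disjoint
    rw [Set.disjoint_left]
    rintro α hα ⟨u, hu, hβ⟩
    exact hu (IsWeil.unique hq hβ hα)
  exact Submodule.disjoint_def.1 hd x h1 h2

variable [IsAlgClosed Ω]

theorem decomp (M : FN q Ω) (v : ℤ) (x : M.V) : ∃ a ∈ M.wt v, ∃ b ∈ M.ow v, x = a + b := by
  have htop : GS M.F {α : Ω | ∃ w : ℤ, IsWeil q α w} = ⊤ := by
    rw [eq_top_iff, ← GS_univ M.F]
    apply GS_le
    intro α _
    by_cases h : ∃ w : ℤ, IsWeil q α w
    · exact le_GS _ h
    · intro y hy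
      by_cases hy0 : y = 0
      · rw [hy0]; exact Submodule.zero_mem _
      · exfalso
        apply h
        rw [mem_maxGenEigenspace] at hy
        classical
        let n := Nat.find hy
        have hn : ((M.F - α • (1 : End Ω M.V)) ^ n) y = 0 := Nat.find_spec hy
        have hn0 : n ≠ 0 := by
          intro h0
          rw [h0] at hn
          exact hy0 (by simpa using hn)
        obtain ⟨m, hm⟩ := Nat.exists_eq_succ_of_ne_zero hn0
        have hm' : ((M.F - α • (1 : End Ω M.V)) ^ m) y ≠ 0 := Nat.find_min hy (by omega)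
        refine M.mixed α (((M.F - α • (1 : End Ω M.V)) ^ m) y) hm' ?_
        rw [hm, pow_succ'] at hn
        have : (M.F - α • (1 : End Ω M.V)) (((M.F - α • (1 : End Ω M.V)) ^ m) y) = 0 := hn
        rw [LinearMap.sub_apply, sub_eq_zero] at this
        rw [this]
        rfl
  have hx : x ∈ GS M.F ({α : Ω | IsWeil q α v} ∪ {α : Ω | ∃ u, u ≠ v ∧ IsWeil q α u}) := by
    have h1 : x ∈ GS M.F {α : Ω | ∃ w : ℤ, IsWeil q α w} := by
      rw [htop]; trivial
    refine GS_mono _ ?_ h1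
    rintro α ⟨u, hu⟩
    by_cases h : u = v
    · left; subst h; exact hu
    · right; exact ⟨u, h, hu⟩
  rw [GS_union] at hx
  obtain ⟨a, ha, b, hb, hab⟩ := Submodule.mem_sup.1 hx
  exact ⟨a, ha, b, hb, hab.symm⟩

/-- exactness of the functor of the weight `v` parts -/
theorem wt_exact (hq : 1 < q) {A B C : FN q Ω} {f : A.V →ₗ[Ω] B.V} {g : B.V →ₗ[Ω] C.V}
    (hf : A.IsHom B f) (h : Function.Exact f g) (v : ℤ) {y : B.V}
    (hy : y ∈ B.wt v) (hgy : g y = 0) : ∃ x ∈ A.wt v, f x = y := by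
  obtain ⟨x0, hx0⟩ := (h y).1 hgy
  obtain ⟨a, ha, b, hb, hab⟩ := A.decomp v x0
  refine ⟨a, ha, ?_⟩
  have h1 : y - f a = f b := by
    rw [← hx0, hab, map_add]; abel
  have h2 : y - f a ∈ B.wt v := Submodule.sub_mem _ hy (hf.wt v a ha)
  have h3 := B.disj hq v h2 (by rw [h1]; exact hf.ow v b hb)
  exact (sub_eq_zero.1 h3).symm

end FN

open FN

theorem fiv_thm : FIVStmt := by
  intro q Ω _ _ _ hq A B C D E f g h l hf hg hh hl e1 e2 e3 w hA hB hD hE n
  have ev : w - (n : ℤ) = (w + n) - 2 * n := by ring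
  have hN : ∀ (M : FN q Ω) (x : M.V), x ∈ M.wt (w + n) → (M.N ^ n) x ∈ M.wt (w - n) := by
    intro M x hx
    rw [ev]
    exact M.wt_Npow hq _ n x hx
  constructor
  · intro x hx hx0
    have h1 : h x = 0 := by
      apply (hD n).1 _ (hh.wt _ x hx)
      rw [← hh.Npow, hx0, map_zero]
    obtain ⟨b, hb, hbx⟩ := wt_exact hq hg e2 _ hx h1
    have h2 : g ((B.N ^ n) b) = 0 := by rw [hg.Npow, hbx, hx0]
    obtain ⟨a', ha', hab⟩ := wt_exact hq hf e1 _ (hN B b hb) h2
    obtain ⟨a, ha, haa⟩ := (hA n).2 a' ha'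
    have h3 : b - f a = 0 := by
      apply (hB n).1 _ (Submodule.sub_mem _ hb (hf.wt _ a ha))
      rw [map_sub, ← hf.Npow, haa, hab, sub_self]
    rw [← hbx, sub_eq_zero.1 h3]
    exact (e1 (f a)).2 ⟨a, rfl⟩
  · intro y hy
    obtain ⟨d, hd, hdy⟩ := (hD n).2 _ (hh.wt _ y hy)
    have h1 : l d = 0 := by
      apply (hE n).1 _ (hl.wt _ d hd)
      rw [← hl.Npow, hdy]
      exact (e3 (h y)).2 ⟨y, rfl⟩
    obtain ⟨c, hc, hcd⟩ := wt_exact hq hh e3 _ hd h1
    have h2 : h (y - (C.N ^ n) c) = 0 := by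
      rw [map_sub, hh.Npow, hcd, hdy, sub_self]
    obtain ⟨b, hb, hby⟩ := wt_exact hq hg e2 _ (Submodule.sub_mem _ hy (hN C c hc)) h2
    obtain ⟨b', hb', hbb⟩ := (hB n).2 b hb
    refine ⟨c + g b', Submodule.add_mem _ hc (hg.wt _ b' hb'), ?_⟩
    rw [map_add, ← hg.Npow, hbb, hby]
    abel

theorem twi_thm : TWIStmt := by
  intro q Ω _ _ _ hq M M' hT w
  obtain ⟨e, he, hN⟩ := hT
  have hq0 : (q : Ω) ≠ 0 := FN.q_ne hq
  have h1 : ∀ v, ∀ x ∈ M.wt v, e x ∈ M'.wt (v + 2) := by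
    intro v x hx
    exact GS_hom (f := e.toLinearMap) (c := (q : Ω)) (fun x => he x)
      (fun α hα => IsWeil.mul hq hα isWeil_q) x hx
  have h2 : ∀ v, ∀ y ∈ M'.wt (v + 2), e.symm y ∈ M.wt v := by
    intro v y hy
    refine GS_hom (f := e.symm.toLinearMap) (c := (q : Ω)⁻¹) (fun y => ?_) (fun α hα => ?_) y hy
    · show M.F (e.symm y) = (q : Ω)⁻¹ • e.symm (M'.F y)
      have := he (e.symm y)
      rw [LinearEquiv.apply_symm_apply] at this
      rw [this, map_smul, LinearEquiv.symm_apply_apply, smul_smul, inv_mul_cancel₀ hq0, one_smul]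
    · have := IsWeil.mul hq hα isWeil_qinv
      rwa [show v + 2 + -2 = v by ring] at this
  have h3 : ∀ (n : ℕ) (x : M.V), (M'.N ^ n) (e x) = e ((M.N ^ n) x) := by
    intro n x
    induction n with
    | zero => simp
    | succ n ih =>
      rw [pow_succ', pow_succ']
      show M'.N ((M'.N ^ n) (e x)) = e (M.N ((M.N ^ n) x))
      rw [ih, hN]
  constructor
  · intro h n
    constructor
    · intro y hy hy0
      have h4 := h2 (w + n) y (by rw [show w + (n : ℤ) + 2 = w + 2 + n by ring]; exact hy)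
      have h5 : (M.N ^ n) (e.symm y) = 0 := by
        apply e.injective
        rw [← h3, LinearEquiv.apply_symm_apply, hy0, map_zero]
      have h6 := (h n).1 _ h4 h5
      have h7 := congrArg e h6
      rwa [LinearEquiv.apply_symm_apply, map_zero] at h7
    · intro y hy
      have h4 := h2 (w - n) y (by rw [show w - (n : ℤ) + 2 = w + 2 - n by ring]; exact hy)
      obtain ⟨x, hx, hxy⟩ := (h n).2 _ h4
      refine ⟨e x, ?_, ?_⟩
      · have := h1 _ x hx
        rwa [show w + (n : ℤ) + 2 = w + 2 + n by ring] at this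
      · rw [h3, hxy, LinearEquiv.apply_symm_apply]
  · intro h n
    constructor
    · intro x hx hx0
      have h4 := h1 _ x hx
      rw [show w + (n : ℤ) + 2 = w + 2 + n by ring] at h4
      have h6 := (h n).1 _ h4 (by rw [h3, hx0, map_zero])
      exact (LinearEquiv.map_eq_zero_iff e).1 h6
    · intro y hy
      have h4 := h1 _ y hy
      rw [show w - (n : ℤ) + 2 = w + 2 - n by ring] at h4
      obtain ⟨x, hx, hxy⟩ := (h n).2 _ h4
      refine ⟨e.symm x, ?_, ?_⟩
      · apply h2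
        rwa [show w + (n : ℤ) + 2 = w + 2 + n by ring]
      · apply e.injective
        rw [← h3, LinearEquiv.apply_symm_apply, hxy]

end Pool.H9.WMC
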