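import Pool.Agent.H9.WMC.Alg

/-! # WMC, module EOP -/

set_option autoImplicit false

namespace Pool.H9.WMC

open MvPolynomial

namespace EOP

variable {A : Type} [CommRing A] {n : ℕ}

theorem rel_sum (q : Fin n → A) :
    ∑ i, algebraMap A (E q) (q i) * (Ideal.Quotient.mk (Ideal.span {rel q}) (X i) : E q) = 1 := by
  have h : (Ideal.Quotient.mk (Ideal.span {rel q}) (rel q) : E q) = 0 :=
    Ideal.Quotient.eq_zero_iff_mem.2 (Ideal.subset_span rfl)
  have h2 : (Ideal.Quotient.mk (Ideal.span {rel q}) (∑ i, C (q i) * X i) : E q) = 1 := by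
    have h3 : (∑ i, C (q i) * X i : MvPolynomial (Fin n) A) = rel q + 1 := by
      unfold rel; ring
    rw [h3, map_add, h, map_one, zero_add]
  rw [map_sum] at h2
  exact h2

theorem main (q : Fin (n + 1) → A) :
    Nonempty (Localization.Away (algebraMap A (E q) (q 0)) ≃ₐ[A]
      MvPolynomial (Fin n) (Localization.Away (q 0))) := by
  let B := Localization.Away (q 0)
  let M := MvPolynomial (Fin n) B
  let x : E q := algebraMap A (E q) (q 0)
  let LE := Localization.Away x
  let y : Fin (n + 1) → E q := fun i => Ideal.Quotient.mk _ (X i)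
  have hrel : ∑ i, algebraMap A (E q) (q i) * y i = 1 := rel_sum q
  let iq : B := IsLocalization.Away.invSelf (q 0)
  have hiq : algebraMap A B (q 0) * iq = 1 := IsLocalization.Away.mul_invSelf (q 0)
  let y0 : M := C iq * (1 - ∑ i : Fin n, algebraMap A M (q i.succ) * X i)
  have hy0 : algebraMap A M (q 0) * y0 = 1 - ∑ i : Fin n, algebraMap A M (q i.succ) * X i := by
    have h1 : algebraMap A M (q 0) * C iq = 1 := by
      rw [IsScalarTower.algebraMap_apply A B M, MvPolynomial.algebraMap_eq, ← map_mul, hiq, map_one]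
    show algebraMap A M (q 0) * (C iq * _) = _
    rw [← mul_assoc, h1, one_mul]
  let F0 : MvPolynomial (Fin (n + 1)) A →ₐ[A] M := MvPolynomial.aeval (Fin.cons y0 X)
  have hF0 : ∀ a ∈ Ideal.span {rel q}, F0 a = 0 := by
    intro a ha
    have h1 : F0 (rel q) = 0 := by
      unfold rel
      rw [map_sub, map_one, map_sum, Fin.sum_univ_succ]
      simp only [map_mul, F0, aeval_C, aeval_X, Fin.cons_zero, Fin.cons_succ]
      rw [hy0]
      ring
    obtain ⟨c, hc⟩ := Ideal.mem_span_singleton'.1 ha
    rw [← hc, map_mul, h1, mul_zero]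
  let F1 : E q →ₐ[A] M := Ideal.Quotient.liftₐ _ F0 hF0
  have hF1 : ∀ i, F1 (y i) = (Fin.cons y0 X : Fin (n + 1) → M) i := by
    intro i
    show F0 (X i) = _
    simp only [F0, aeval_X]
  let F : LE →ₐ[A] M := IsLocalization.liftAlgHom (M := Submonoid.powers x) (f := F1) (by
    rintro ⟨_, m, rfl⟩
    simp only [map_pow]
    apply IsUnit.pow
    show IsUnit (F1 (algebraMap A (E q) (q 0)))
    rw [F1.commutes, IsScalarTower.algebraMap_apply A B M]
    exact (IsUnit.of_mul_eq_one _ hiq).map _)
  have hF : ∀ e : E q, F (algebraMap (E q) LE e) = F1 e := by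
    intro e
    exact IsLocalization.lift_eq _ _
  let g0 : B →ₐ[A] LE := IsLocalization.liftAlgHom (M := Submonoid.powers (q 0))
    (f := Algebra.ofId A LE) (by
    rintro ⟨_, m, rfl⟩
    simp only [map_pow]
    apply IsUnit.pow
    show IsUnit (algebraMap A LE (q 0))
    rw [IsScalarTower.algebraMap_apply A (E q) LE]
    exact IsLocalization.Away.algebraMap_isUnit x)
  let G : M →ₐ[A] LE := MvPolynomial.aevalTower g0 (fun i : Fin n => algebraMap (E q) LE (y i.succ))
  have hG : ∀ i, G (X i) = algebraMap (E q) LE (y i.succ) := fun i => aevalTower_X _ _ i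
  have h1 : F.comp G = AlgHom.id A M := by
    apply MvPolynomial.algHom_ext'
    · exact (IsLocalization.algHom_subsingleton (Submonoid.powers (q 0))).elim _ _
    · intro i
      rw [AlgHom.comp_apply, hG, hF, hF1]
      rfl
  have h2 : G.comp F1 = IsScalarTower.toAlgHom A (E q) LE := by
    apply Ideal.Quotient.algHom_ext
    apply MvPolynomial.algHom_ext
    intro i
    show G (F1 (y i)) = algebraMap (E q) LE (y i)
    rw [hF1]
    refine Fin.cases ?_ (fun i => ?_) i
    · rw [Fin.cons_zero]
      -- multiply by the unit `q 0`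
      have hu : IsUnit (algebraMap A LE (q 0)) := by
        rw [IsScalarTower.algebraMap_apply A (E q) LE]
        exact IsLocalization.Away.algebraMap_isUnit x
      apply hu.mul_left_cancel
      have e1 : algebraMap A LE (q 0) * G y0 = G (algebraMap A M (q 0) * y0) := by
        rw [map_mul G (algebraMap A M (q 0)) y0, G.commutes]
      rw [e1, hy0, map_sub, map_one, map_sum]
      have e2 : algebraMap A LE (q 0) * algebraMap (E q) LE (y 0) =
          1 - ∑ i : Fin n, algebraMap A LE (q i.succ) * algebraMap (E q) LE (y i.succ) := by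
        have := congrArg (algebraMap (E q) LE) hrel
        rw [map_sum, map_one, Fin.sum_univ_succ] at this
        simp only [map_mul, ← IsScalarTower.algebraMap_apply A (E q) LE] at this
        rw [← this]
        ring
      rw [e2]
      congr 1
      apply Finset.sum_congr rfl
      intro i _
      rw [map_mul, G.commutes, hG]
    · rw [Fin.cons_succ, hG]
  have h3 : G.comp F = AlgHom.id A LE := by
    apply AlgHom.coe_ringHom_injective
    apply IsLocalization.ringHom_ext (Submonoid.powers x)
    apply RingHom.ext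
    intro e
    show G (F (algebraMap (E q) LE e)) = algebraMap (E q) LE e
    rw [hF]
    exact congrArg (fun f : E q →ₐ[A] LE => f e) h2
  exact ⟨AlgEquiv.ofAlgHom F G h1 h3⟩

end EOP

theorem eop_thm : EOPStmt := by
  intro k _ A _ _ n q
  obtain ⟨e⟩ := EOP.main q
  exact ⟨e.restrictScalars k⟩

end Pool.H9.WMC
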