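import Pool.Agent.H9.WMC.Alg

/-! # WMC, module EPR -/

set_option autoImplicit false

namespace Pool.H9.WMC

open MvPolynomial

namespace EPR

variable {k : Type} [Field k]

/-- the double quotient -/
theorem quo_succ (A : Type) [CommRing A] [Algebra k A] {n : ℕ} (q : Fin (n + 1) → A) :
    Nonempty (Quo (fun i : Fin n => Ideal.Quotient.mk (Ideal.span {q 0}) (q i.succ)) ≃ₐ[k]
      Quo q) := by
  have e1 : Ideal.span (Set.range (fun i : Fin n => Ideal.Quotient.mk (Ideal.span {q 0}) (q i.succ)))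
      = (Ideal.span (Set.range fun i : Fin n => q i.succ)).map
        (Ideal.Quotient.mkₐ k (Ideal.span {q 0})) := by
    rw [Ideal.map_span]
    congr 1
    ext x
    simp
  have e2 : Ideal.span {q 0} ⊔ Ideal.span (Set.range fun i : Fin n => q i.succ) =
      Ideal.span (Set.range q) := by
    rw [← Ideal.span_union]
    congr 1
    ext x
    simp only [Set.mem_union, Set.mem_singleton_iff, Set.mem_range]
    constructor
    · rintro (h | ⟨i, hi⟩)
      · exact ⟨0, h.symm⟩
      · exact ⟨i.succ, hi⟩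
    · rintro ⟨i, hi⟩
      refine Fin.cases (fun h => Or.inl h.symm) (fun j hj => Or.inr ⟨j, hj⟩) i hi
  exact ⟨(Ideal.quotientEquivAlgOfEq k e1).trans
    ((DoubleQuot.quotQuotEquivQuotSupₐ k _ _).trans (Ideal.quotientEquivAlgOfEq k e2))⟩

theorem quo_one (A : Type) [CommRing A] [Algebra k A] {n : ℕ} (q : Fin (n + 1) → A)
    (h : 1 ≤ n + 1) :
    Nonempty (Quo (pre q 1 h) ≃ₐ[k] (A ⧸ Ideal.span {q 0})) := by
  have e1 : Ideal.span (Set.range (pre q 1 h)) = Ideal.span {q 0} := by
    congr 1
    ext x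
    simp only [Set.mem_range, Set.mem_singleton_iff]
    constructor
    · rintro ⟨i, hi⟩
      rw [← hi]
      have : i = 0 := Subsingleton.elim _ _
      rw [this]
      rfl
    · intro hx
      exact ⟨0, hx.symm⟩
  exact ⟨Ideal.quotientEquivAlgOfEq k e1⟩

theorem quo_zero (A : Type) [CommRing A] [Algebra k A] (q : Fin 0 → A) :
    Nonempty (A ≃ₐ[k] Quo q) := by
  have e1 : (⊥ : Ideal A) = Ideal.span (Set.range q) := by
    rw [Set.range_eq_empty, Ideal.span_empty]
  exact ⟨(AlgEquiv.quotientBot k A).symm.trans (Ideal.quotientEquivAlgOfEq k e1)⟩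

theorem E_zero (A : Type) [CommRing A] (q : Fin 0 → A) : Subsingleton (E q) := by
  apply Ideal.Quotient.subsingleton_iff.2
  rw [Ideal.eq_top_iff_one]
  have h : (rel q) ∈ Ideal.span {rel q} := Ideal.subset_span rfl
  have h2 : rel q = -1 := by
    unfold rel
    simp
  rw [h2] at h ⊢
  have := (Ideal.span {(-1 : MvPolynomial (Fin 0) A)}).neg_mem h
  rwa [neg_neg] at this

variable (hLIN : LINStmt) (hECL : ECLStmt) (hEOP : EOPStmt) (P : Pred k) (hP : Good P)

include hLIN hECL hEOP hP

theorem claim1 (n : ℕ) : ∀ (A : Type) [CommRing A] [Algebra k A] (q : Fin (n + 1) → A), P A →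
    (∀ (j : ℕ) (hj : j < n + 1), P (Quo (pre q j hj.le))) → P (E q) → P (Quo q) := by
  have hL := hLIN P hP
  induction n with
  | zero =>
    intro A _ _ q hA _ hE
    -- the closed part of `E q` is zero
    obtain ⟨e1⟩ := hECL (k := k) A 0 q
    obtain ⟨e2⟩ := hEOP (k := k) A 0 q
    have h1 : P (E q ⧸ Ideal.span {algebraMap A (E q) (q 0)}) := by
      have h0 : P (Polynomial (E (fun i : Fin 0 =>
          Ideal.Quotient.mk (Ideal.span {q 0}) (q i.succ)))) :=
        hP.line _ (hL.zero A _ hA (E_zero _ _))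
      exact hP.iso _ _ e1.symm h0
    have h2 := hP.opn _ _ hE h1
    have h3 : P (Localization.Away (q 0)) := hL.unmv _ (Fin 0) (hP.iso _ _ e2 h2)
    have h4 := hP.closed A (q 0) hA h3
    obtain ⟨e3⟩ := quo_one (k := k) A q le_rfl
    exact hP.iso _ _ e3.symm h4
  | succ n ih =>
    intro A _ _ q hA hQ hE
    obtain ⟨e1⟩ := hECL (k := k) A (n + 1) q
    obtain ⟨e2⟩ := hEOP (k := k) A (n + 1) q
    obtain ⟨e3⟩ := quo_one (k := k) A q (by omega)
    have hA0 : P (A ⧸ Ideal.span {q 0}) := hP.iso _ _ e3 (hQ 1 (by omega))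
    have h1 : P (Localization.Away (algebraMap A (E q) (q 0))) := by
      apply hP.iso _ _ e2.symm
      exact hL.mv _ _ (hP.opn A (q 0) hA hA0)
    have h2 := hP.closed _ _ hE h1
    have h3 := hP.unline _ (hP.iso _ _ e1 h2)
    have h4 := ih (A ⧸ Ideal.span {q 0})
      (fun i : Fin (n + 1) => Ideal.Quotient.mk (Ideal.span {q 0}) (q i.succ)) hA0 (by
        intro j hj
        obtain ⟨e4⟩ := quo_succ (k := k) A (pre q (j + 1) (by omega))
        exact hP.iso _ _ e4.symm (hQ (j + 1) (by omega))) h3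
    obtain ⟨e5⟩ := quo_succ (k := k) A q
    exact hP.iso _ _ e5 h4

theorem claim2 (n : ℕ) : ∀ (A : Type) [CommRing A] [Algebra k A] (q : Fin n → A),
    Algebra.FiniteType k A → P A →
    (∀ (j : ℕ) (hj : j ≤ n), P (Quo (pre q j hj))) → P (E q) := by
  have hL := hLIN P hP
  induction n with
  | zero =>
    intro A _ _ q _ hA _
    exact hL.zero A _ hA (E_zero _ _)
  | succ n ih =>
    intro A _ _ q hft hA hQ
    obtain ⟨e1⟩ := hECL (k := k) A n q
    obtain ⟨e2⟩ := hEOP (k := k) A n q
    obtain ⟨e3⟩ := quo_one (k := k) A q (by omega)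
    have hA0 : P (A ⧸ Ideal.span {q 0}) := hP.iso _ _ e3 (hQ 1 (by omega))
    have hft0 : Algebra.FiniteType k (A ⧸ Ideal.span {q 0}) :=
      Algebra.FiniteType.of_surjective (Ideal.Quotient.mkₐ k _) (Ideal.Quotient.mkₐ_surjective k _)
    have hft1 : Algebra.FiniteType k (MvPolynomial (Fin (n + 1)) A) :=
      Algebra.FiniteType.trans hft inferInstance
    have hft2 : Algebra.FiniteType k (E q) :=
      Algebra.FiniteType.of_surjective (Ideal.Quotient.mkₐ k _) (Ideal.Quotient.mkₐ_surjective k _)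
    apply hP.total _ (algebraMap A (E q) (q 0)) hft2
    · have h0 : P (Polynomial (E (fun i : Fin n =>
          Ideal.Quotient.mk (Ideal.span {q 0}) (q i.succ)))) := by
        apply hP.line
        apply ih _ _ hft0 hA0
        intro j hj
        obtain ⟨e4⟩ := quo_succ (k := k) A (pre q (j + 1) (by omega))
        exact hP.iso _ _ e4.symm (hQ (j + 1) (by omega))
      exact hP.iso _ _ e1.symm h0
    · apply hP.iso _ _ e2.symm
      exact hL.mv _ _ (hP.opn A (q 0) hA hA0)

end EPR

theorem epr_thm (h1 : LINStmt) (h2 : ECLStmt) (h3 : EOPStmt) : EPRStmt := by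
  intro k _ P hP A _ _ n q hft hA
  constructor
  · intro h j
    induction j using Nat.strong_induction_on with
    | _ j ih =>
      intro hj
      rcases j with _ | j
      · obtain ⟨e⟩ := EPR.quo_zero (k := k) A (pre q 0 hj)
        exact hP.iso _ _ e hA
      · apply EPR.claim1 h1 h2 h3 P hP j A (pre q (j + 1) hj) hA
        · intro i hi
          exact ih i hi (by omega)
        · exact h (j + 1) hj
  · intro h j hj
    apply EPR.claim2 h1 h2 h3 P hP j A (pre q j hj) hft hA
    intro i hi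
    exact h i (by omega)

end Pool.H9.WMC
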