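import Pool.Agent.H9.WMC.Thy

/-! # WMC, module GOO -/

set_option autoImplicit false

namespace Pool.H9.WMC

open Module Pool.H73.WM

theorem goo_thm (h1 : WMPStmt) (h2 : FIVStmt) (h3 : TWIStmt) (h4 : SUMStmt) : GOOStmt := by
  intro k _ G q Ω _ _ _ hq C
  have hWP : ∀ X, C.WM X ↔ ∀ w i : ℤ, (C.gr X w i).Pur w := by
    intro X
    exact forall_congr' fun w => forall_congr' fun i => h1 hq (C.gr X w i) w
  have hsub : ∀ (M : FN q Ω) (w : ℤ), Subsingleton M.V → M.Pur w := by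
    intro M w hM n
    exact ⟨fun x _ _ => Subsingleton.elim _ _, fun y _ => ⟨0, Submodule.zero_mem _,
      Subsingleton.elim _ _⟩⟩
  have hX : ∀ X Z U, G.Cut X Z U → C.WM Z → C.WM U → C.WM X := by
    intro X Z U hc hZ hU
    rw [hWP] at hZ hU ⊢
    intro w i
    obtain ⟨a, b, d, ha, hb, hd, e1, e2, e3⟩ := C.exact X Z U hc w
    obtain ⟨j, rfl⟩ : ∃ j, i = j + 1 := ⟨i - 1, by ring⟩
    exact h2 hq (C.gr Z w j) (C.gr U w (j + 1)) (C.gr X w (j + 1)) (C.gr Z w (j + 1))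
      (C.gr U w (j + 1 + 1)) (d j) (a (j + 1)) (b (j + 1)) (d (j + 1)) (hd j) (ha _) (hb _) (hd _)
      (e3 j) (e1 _) (e2 _) w (hZ w j) (hU w _) (hZ w _) (hU w _)
  have hZ : ∀ X Z U, G.Cut X Z U → C.WM X → C.WM U → C.WM Z := by
    intro X Z U hc hX hU
    rw [hWP] at hX hU ⊢
    intro w i
    obtain ⟨a, b, d, ha, hb, hd, e1, e2, e3⟩ := C.exact X Z U hc w
    exact h2 hq (C.gr U w i) (C.gr X w i) (C.gr Z w i) (C.gr U w (i + 1)) (C.gr X w (i + 1))
      (a i) (b i) (d i) (a (i + 1)) (ha i) (hb i) (hd i) (ha _) (e1 i) (e2 i) (e3 i) w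
      (hU w i) (hX w i) (hU w _) (hX w _)
  have hU : ∀ X Z U, G.Cut X Z U → C.WM X → C.WM Z → C.WM U := by
    intro X Z U hc hX hZ
    rw [hWP] at hX hZ ⊢
    intro w i
    obtain ⟨a, b, d, ha, hb, hd, e1, e2, e3⟩ := C.exact X Z U hc w
    obtain ⟨j, rfl⟩ : ∃ j, i = j + 1 := ⟨i - 1, by ring⟩
    exact h2 hq (C.gr X w j) (C.gr Z w j) (C.gr U w (j + 1)) (C.gr X w (j + 1))
      (C.gr Z w (j + 1)) (b j) (d j) (a (j + 1)) (b (j + 1)) (hb j) (hd j) (ha _) (hb _)
      (e2 j) (e3 j) (e1 _) w (hX w j) (hZ w j) (hX w _) (hZ w _)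
  have hE : ∀ X, G.size X = 0 → C.WM X := by
    intro X h0
    rw [hWP]
    intro w i
    exact hsub _ w (C.empty X w i h0)
  have hk : C.WMA k := by
    refine ⟨inferInstance, ?_⟩
    rw [hWP]
    intro w i
    by_cases hwi : w = i
    · subst hwi
      by_cases hw0 : w = 0
      · subst hw0
        have key : ∀ v : ℤ, v ≠ 0 → ∀ x ∈ (C.gr (G.Spec k) 0 0).wt v, x = 0 := by
          intro v hv x hx
          by_contra hx0
          have h5 := eig_mem (C.gr (G.Spec k) 0 0).F {α : Ω | IsWeil q α v} (α := 1) hx hx0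
            (by rw [(C.point_zero x).1, one_smul])
          exact hv (IsWeil.unique hq h5 isWeil_one)
        intro n
        rcases Nat.eq_zero_or_pos n with hn | hn
        · subst hn
          refine ⟨fun x _ h => by simpa using h, fun y hy => ⟨y, ?_, by simp⟩⟩
          simpa using hy
        · refine ⟨fun x hx _ => key _ (by omega) x hx, fun y hy => ⟨0, Submodule.zero_mem _, ?_⟩⟩
          rw [map_zero, key _ (by omega) y hy]
      · exact hsub _ _ (C.point_pos w hw0)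
    · exact hsub _ _ (C.pure (G.Spec k) w i G.point hwi)
  refine ⟨hX, hZ, hU, hE, hk, ?_⟩
  constructor
  · -- iso
    rintro A B _ _ _ _ e ⟨hA, hA2⟩
    have hB : Algebra.FiniteType k B := Algebra.FiniteType.equiv hA e
    refine ⟨hB, ?_⟩
    obtain ⟨O, hO, hc⟩ := G.cut_iso A B e
    exact hU _ _ _ hc hA2 (hE O hO)
  · -- closed
    rintro A _ _ h ⟨hA, hA2⟩ ⟨hL, hL2⟩
    have hB : Algebra.FiniteType k (A ⧸ Ideal.span {h}) :=
      Algebra.FiniteType.of_surjective (Ideal.Quotient.mkₐ k _) (Ideal.Quotient.mkₐ_surjective k _)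
    exact ⟨hB, hZ _ _ _ (G.cut_spec A h) hA2 hL2⟩
  · -- open
    rintro A _ _ h ⟨hA, hA2⟩ ⟨hL, hL2⟩
    have hB1 : Algebra.FiniteType A (Localization.Away h) :=
      IsLocalization.finiteType_of_monoid_fg (Submonoid.powers h) _
    have hB : Algebra.FiniteType k (Localization.Away h) := Algebra.FiniteType.trans hA hB1
    exact ⟨hB, hU _ _ _ (G.cut_spec A h) hA2 hL2⟩
  · -- total
    rintro A _ _ h hA ⟨hB, hB2⟩ ⟨hL, hL2⟩
    exact ⟨hA, hX _ _ _ (G.cut_spec A h) hB2 hL2⟩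
  · -- line
    rintro A _ _ ⟨hA, hA2⟩
    have hB : Algebra.FiniteType k (Polynomial A) := Algebra.FiniteType.trans hA inferInstance
    refine ⟨hB, ?_⟩
    rw [hWP] at hA2 ⊢
    intro w i
    obtain ⟨w, rfl⟩ : ∃ v, w = v + 2 := ⟨w - 2, by ring⟩
    obtain ⟨i, rfl⟩ : ∃ v, i = v + 2 := ⟨i - 2, by ring⟩
    exact (h3 hq _ _ (C.line A w i) w).1 (hA2 w i)
  · -- unline
    rintro A _ _ ⟨hB, hB2⟩
    have hA : Algebra.FiniteType k A :=
      Algebra.FiniteType.of_surjective ((Polynomial.aeval (0 : A)).restrictScalars k) (fun a =>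
        ⟨Polynomial.C a, by simp⟩)
    refine ⟨hA, ?_⟩
    rw [hWP] at hB2 ⊢
    intro w i
    exact (h3 hq _ _ (C.line A w i) w).2 (hB2 (w + 2) (i + 2))
  · -- gm
    rintro A _ _ ⟨hB, hB2⟩
    have hA : Algebra.FiniteType k A := by
      let f : Localization.Away (Polynomial.X : Polynomial A) →ₐ[A] A :=
        IsLocalization.liftAlgHom (M := Submonoid.powers (Polynomial.X : Polynomial A))
          (f := Polynomial.aeval (1 : A)) (by
            rintro ⟨y, n, rfl⟩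
            simp)
      exact Algebra.FiniteType.of_surjective (f.restrictScalars k) (fun a =>
        ⟨algebraMap A _ a, by
          show f (algebraMap A _ a) = a
          rw [f.commutes]
          rfl⟩)
    refine ⟨hA, ?_⟩
    rw [hWP] at hB2 ⊢
    intro w i
    exact h4 hq hq _ _ (C.gm A w i) w (hB2 w (i + 1))

end Pool.H9.WMC
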